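import Pool.Agent.V11124.TensorCore

open Finset Filter Topology

namespace Pool.Agent.Results.MP_e47ff0_co.TensorPower

open Pool.Agent.V11124.TensorCore

/-- The normalised number `s_p(F,G)` of labelled copies of `F` in the `n`-vertex graph `G`:
`emb(F,G) / (n(n-1)...(n-k+1) p^{e(F)})`, where `k` is the number of vertices of `F`. -/
noncomputable def sDens (p : ℝ) {k n : ℕ} (F : SimpleGraph (Fin k)) (G : SimpleGraph (Fin n)) : ℝ :=
  (G.labelledCopyCount F : ℝ) / ((n.descFactorial k : ℝ) * p ^ F.edgeSet.ncard)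

/-- the slowly growing parameter -/
def mm (n : ℕ) : ℕ := Nat.findGreatest (fun m => (m ^ (m ^ 2)) ^ 2 ≤ n) n

theorem mm_spec {n : ℕ} (hn : 1 ≤ n) : ((mm n) ^ ((mm n) ^ 2)) ^ 2 ≤ n :=
  Nat.findGreatest_spec (P := fun m => (m ^ (m ^ 2)) ^ 2 ≤ n) (m := 0) (Nat.zero_le _) (by simpa using hn)

theorem tendsto_mm : Tendsto mm atTop atTop := by
  refine tendsto_atTop.2 fun K => ?_
  filter_upwards [eventually_ge_atTop (max K ((K ^ (K ^ 2)) ^ 2))] with n hn
  exact Nat.le_findGreatest (P := fun m => (m ^ (m ^ 2)) ^ 2 ≤ n) ((le_max_left _ _).trans hn) ((le_max_right _ _).trans hn)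

/-- digits map -/
def cmap (m n : ℕ) (hm : 2 ≤ m) : Fin n → (Fin (m ^ 2) → Fin m) := fun i =>
  finFunctionFinEquiv.symm ⟨i.1 % (m ^ (m ^ 2)), Nat.mod_lt _ (by positivity)⟩

/-- the graph on `n` vertices -/
def GG (n : ℕ) : SimpleGraph (Fin n) :=
  if h : 2 ≤ mm n then (tens (mm n) ((mm n) ^ 2) (by positivity)).comap (cmap (mm n) n h) else ⊤

/-- colouring density of the complete graph -/
noncomputable def tau {k : ℕ} (F : SimpleGraph (Fin k)) (m : ℕ) : ℝ := (homc F (⊤ : SimpleGraph (Fin m)) : ℝ) / (m : ℝ) ^ k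

theorem hom_bounds {k n : ℕ} (F : SimpleGraph (Fin k)) (hn : 1 ≤ n) (h : 2 ≤ mm n) :
    (1 - 1 / ((mm n : ℝ) ^ ((mm n) ^ 2))) ^ k * ((n : ℝ) ^ k * (tau F (mm n)) ^ ((mm n) ^ 2)) ≤ homc F (GG n) ∧
      (homc F (GG n) : ℝ) ≤ (1 + 1 / ((mm n : ℝ) ^ ((mm n) ^ 2))) ^ k * ((n : ℝ) ^ k * (tau F (mm n)) ^ ((mm n) ^ 2)) := by
  set m := mm n with hmdef
  have hspec := mm_spec hn
  rw [← hmdef] at hspec
  have hm2 : (2 : ℝ) ≤ m := by exact_mod_cast h
  have hMpos : 0 < m ^ (m ^ 2) := by positivity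
  have hG : GG n = (tens m (m ^ 2) (by positivity)).comap (cmap m n h) := by
    unfold GG
    rw [dif_pos h]
  have hfib : ∀ w : Fin (m ^ 2) → Fin m, n / (m ^ (m ^ 2)) ≤ #{x : Fin n | cmap m n h x = w} ∧
      #{x : Fin n | cmap m n h x = w} ≤ n / (m ^ (m ^ 2)) + 1 := by
    intro w
    have := count_mod_bounds n (m ^ (m ^ 2)) hMpos (finFunctionFinEquiv w)
    have e : (Finset.univ.filter (fun x : Fin n => cmap m n h x = w)) =
        Finset.univ.filter (fun x : Fin n => (⟨x.1 % (m ^ (m ^ 2)), Nat.mod_lt _ hMpos⟩ : Fin (m ^ (m ^ 2))) = finFunctionFinEquiv w) := by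
      ext x
      simp only [Finset.mem_filter, Finset.mem_univ, true_and]
      unfold cmap
      rw [Equiv.symm_apply_eq]
    rw [e]
    exact this
  have hup := homc_comap_le F (tens m (m ^ 2) (by positivity)) (cmap m n h) _ (fun w => (hfib w).2)
  have hlo := le_homc_comap F (tens m (m ^ 2) (by positivity)) (cmap m n h) _ (fun w => (hfib w).1)
  rw [← hG, homc_tens, Fintype.card_fin] at hup hlo
  have hM : (0 : ℝ) < (m : ℝ) ^ (m ^ 2) := by positivity
  have hn' : (0 : ℝ) < n := by exact_mod_cast hn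
  have htau : (homc F (⊤ : SimpleGraph (Fin m)) : ℝ) ^ (m ^ 2) = (tau F m) ^ (m ^ 2) * ((m : ℝ) ^ (m ^ 2)) ^ k := by
    unfold tau
    rw [div_pow, ← pow_mul, ← pow_mul, mul_comm k, div_mul_cancel₀ _ (by positivity)]
  have htau0 : 0 ≤ (tau F m) ^ (m ^ 2) := by unfold tau; positivity
  have hMn : (m : ℝ) ^ (m ^ 2) * (m : ℝ) ^ (m ^ 2) ≤ n := by
    have : (((m ^ (m ^ 2)) ^ 2 : ℕ) : ℝ) ≤ n := by exact_mod_cast hspec
    push_cast at this
    nlinarith
  have hdiv1 : ((n / (m ^ (m ^ 2)) : ℕ) : ℝ) * (m : ℝ) ^ (m ^ 2) ≤ n := by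
    have := Nat.div_mul_le_self n (m ^ (m ^ 2))
    exact_mod_cast this
  have hdiv2 : (n : ℝ) < ((n / (m ^ (m ^ 2)) : ℕ) : ℝ) * (m : ℝ) ^ (m ^ 2) + (m : ℝ) ^ (m ^ 2) := by
    have := Nat.lt_div_mul_add (a := n) hMpos
    exact_mod_cast this
  set M : ℝ := (m : ℝ) ^ (m ^ 2) with hMdef
  set a : ℝ := ((n / (m ^ (m ^ 2)) : ℕ) : ℝ) with hadef
  constructor
  · have h1 : (homc F (⊤ : SimpleGraph (Fin m)) : ℝ) ^ (m ^ 2) * a ^ k ≤ (homc F (GG n) : ℝ) := by
      rw [hadef]
      exact_mod_cast hlo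
    refine le_trans ?_ h1
    rw [htau]
    have h2 : (1 - 1 / M) * n ≤ a * M := by
      have h3 : n / M ≥ M := by rw [ge_iff_le, le_div_iff₀ hM]; exact hMn
      have : (1 - 1 / M) * n = n - n / M := by field_simp
      rw [this]; linarith
    have h4 : 0 ≤ 1 - 1 / M := by
      rw [sub_nonneg, div_le_one hM]
      have : (1 : ℝ) ≤ m := by linarith
      exact one_le_pow₀ this
    calc (1 - 1 / M) ^ k * ((n : ℝ) ^ k * (tau F m) ^ (m ^ 2)) = ((1 - 1 / M) * n) ^ k * (tau F m) ^ (m ^ 2) := by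
          rw [mul_pow]; ring
      _ ≤ (a * M) ^ k * (tau F m) ^ (m ^ 2) := by gcongr
      _ = (tau F m) ^ (m ^ 2) * M ^ k * a ^ k := by rw [mul_pow]; ring
  · have h1 : (homc F (GG n) : ℝ) ≤ (homc F (⊤ : SimpleGraph (Fin m)) : ℝ) ^ (m ^ 2) * (a + 1) ^ k := by
      rw [hadef]
      exact_mod_cast hup
    refine h1.trans ?_
    rw [htau]
    have h2 : (a + 1) * M ≤ (1 + 1 / M) * n := by
      have h3 : n / M ≥ M := by rw [ge_iff_le, le_div_iff₀ hM]; exact hMn
      have : (1 + 1 / M) * n = n + n / M := by field_simp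
      rw [this]; linarith
    calc (tau F m) ^ (m ^ 2) * M ^ k * (a + 1) ^ k = ((a + 1) * M) ^ k * (tau F m) ^ (m ^ 2) := by rw [mul_pow]; ring
      _ ≤ ((1 + 1 / M) * n) ^ k * (tau F m) ^ (m ^ 2) := by gcongr
      _ = _ := by rw [mul_pow]; ring

/-- `(1+x)^N -> exp t` -/
theorem tendsto_pow_exp {x : ℕ → ℝ} {N : ℕ → ℕ} {t : ℝ} (hx : Tendsto x atTop (𝓝 0))
    (hN : Tendsto (fun j => (N j : ℝ) * x j) atTop (𝓝 t)) :
    Tendsto (fun j => (1 + x j) ^ (N j)) atTop (𝓝 (Real.exp t)) := by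
  have h1 : Tendsto (fun j => (N j : ℝ) * Real.log (1 + x j)) atTop (𝓝 t) := by
    have hlow : Tendsto (fun j => (N j : ℝ) * x j / (1 + x j)) atTop (𝓝 t) := by
      have : Tendsto (fun j => (N j : ℝ) * x j / (1 + x j)) atTop (𝓝 (t / (1 + 0))) :=
        hN.div (tendsto_const_nhds.add hx) (by norm_num)
      simpa using this
    have hev : ∀ᶠ j in atTop, -(1/2) < x j := hx.eventually_const_lt (by norm_num)
    refine tendsto_of_tendsto_of_tendsto_of_le_of_le' hlow hN ?_ ?_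
    · filter_upwards [hev] with j hj
      have hp : 0 < 1 + x j := by linarith
      have := Real.one_sub_inv_le_log_of_pos hp
      have e : (N j : ℝ) * x j / (1 + x j) = (N j : ℝ) * (1 - (1 + x j)⁻¹) := by
        field_simp; ring
      rw [e]
      exact mul_le_mul_of_nonneg_left this (Nat.cast_nonneg _)
    · filter_upwards [hev] with j hj
      have hp : 0 < 1 + x j := by linarith
      have := Real.log_le_sub_one_of_pos hp
      refine mul_le_mul_of_nonneg_left ?_ (Nat.cast_nonneg _)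
      linarith
  have h2 := (Real.continuous_exp.tendsto t).comp h1
  refine h2.congr' ?_
  have hev : ∀ᶠ j in atTop, -(1/2) < x j := hx.eventually_const_lt (by norm_num)
  filter_upwards [hev] with j hj
  have hp : 0 < 1 + x j := by linarith
  simp only [Function.comp]
  rw [mul_comm, Real.exp_mul, Real.exp_log hp, Real.rpow_natCast]

theorem tendsto_invM : Tendsto (fun n => 1 / ((mm n : ℝ) ^ ((mm n) ^ 2))) atTop (𝓝 0) := by
  have h1 : Tendsto (fun n => 1 / (mm n : ℝ)) atTop (𝓝 0) :=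
    (tendsto_one_div_atTop_nhds_zero_nat (𝕜 := ℝ)).comp tendsto_mm
  refine squeeze_zero' (Eventually.of_forall fun n => by positivity) ?_ h1
  filter_upwards [tendsto_mm.eventually_ge_atTop 1] with n hn
  have h2 : (1 : ℝ) ≤ mm n := by exact_mod_cast hn
  refine one_div_le_one_div_of_le (by linarith) ?_
  exact le_self_pow₀ h2 (by positivity)

theorem tendsto_u {k : ℕ} (F : SimpleGraph (Fin k)) (hτ : ∀ᶠ m in atTop, 0 < tau F m) :
    Tendsto (fun n => (homc F (GG n) : ℝ) / ((n : ℝ) ^ k * (tau F (mm n)) ^ ((mm n) ^ 2))) atTop (𝓝 1) := by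
  have l1 : Tendsto (fun n => (1 - 1 / ((mm n : ℝ) ^ ((mm n) ^ 2))) ^ k) atTop (𝓝 1) := by
    have := (tendsto_const_nhds (x := (1 : ℝ))).sub tendsto_invM
    simpa using this.pow k
  have l2 : Tendsto (fun n => (1 + 1 / ((mm n : ℝ) ^ ((mm n) ^ 2))) ^ k) atTop (𝓝 1) := by
    have := (tendsto_const_nhds (x := (1 : ℝ))).add tendsto_invM
    simpa using this.pow k
  have hev : ∀ᶠ n in atTop, 1 ≤ n ∧ 2 ≤ mm n ∧ 0 < tau F (mm n) := by
    filter_upwards [eventually_ge_atTop 1, tendsto_mm.eventually_ge_atTop 2, tendsto_mm.eventually hτ] with n a b c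
    exact ⟨a, b, c⟩
  refine tendsto_of_tendsto_of_tendsto_of_le_of_le' l1 l2 ?_ ?_
  · filter_upwards [hev] with n ⟨h1, h2, h3⟩
    have hn : (0 : ℝ) < n := by exact_mod_cast h1
    rw [le_div_iff₀ (by positivity)]
    exact (hom_bounds F h1 h2).1
  · filter_upwards [hev] with n ⟨h1, h2, h3⟩
    have hn : (0 : ℝ) < n := by exact_mod_cast h1
    rw [div_le_iff₀ (by positivity)]
    exact (hom_bounds F h1 h2).2

/-- the edge density of `GG n` -/
noncomputable def pp (n : ℕ) : ℝ := if n < 2 then 1 else ((GG n).edgeSet.ncard : ℝ) / (n.choose 2 : ℝ)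

theorem tau_two (m : ℕ) (hm : 2 ≤ m) : tau (⊤ : SimpleGraph (Fin 2)) m = ((m : ℝ) - 1) / m := by
  unfold tau
  rw [homc_top_top]
  have hm2 : (2 : ℝ) ≤ m := by exact_mod_cast hm
  have : (m.descFactorial 2 : ℝ) = m * (m - 1) := by
    simp only [Nat.descFactorial_succ, Nat.descFactorial_zero, Nat.sub_zero]
    push_cast [Nat.cast_sub (show 1 ≤ m by omega)]
    ring
  rw [this]
  field_simp

theorem tau_three (m : ℕ) (hm : 2 ≤ m) : tau (⊤ : SimpleGraph (Fin 3)) m = ((m : ℝ) - 1) * (m - 2) / m ^ 2 := by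
  unfold tau
  rw [homc_top_top]
  have hm2 : (2 : ℝ) ≤ m := by exact_mod_cast hm
  have : (m.descFactorial 3 : ℝ) = m * (m - 1) * (m - 2) := by
    simp only [Nat.descFactorial_succ, Nat.descFactorial_zero, Nat.sub_zero]
    push_cast [Nat.cast_sub (show 1 ≤ m by omega), Nat.cast_sub (show 2 ≤ m by omega)]
    ring
  rw [this]
  field_simp

theorem tau_C4 (m : ℕ) (hm : 2 ≤ m) : tau (SimpleGraph.cycleGraph 4) m =
    (((m : ℝ) - 1) ^ 2 + (m - 1) * (m - 2) ^ 2) / m ^ 3 := by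
  unfold tau
  rw [homc_C4_top m hm]
  have hm2 : (2 : ℝ) ≤ m := by exact_mod_cast hm
  field_simp

theorem pp_eq {n : ℕ} (hn : 2 ≤ n) : pp n = (homc (⊤ : SimpleGraph (Fin 2)) (GG n) : ℝ) / (n * (n - 1)) := by
  unfold pp
  rw [if_neg (by omega), homc_two, Nat.cast_choose_two ℝ]
  have hn2 : (2 : ℝ) ≤ n := by exact_mod_cast hn
  have : (n : ℝ) - 1 ≠ 0 := by linarith
  push_cast
  field_simp

theorem tendsto_rho : Tendsto (fun n => pp n / (((mm n : ℝ) - 1) / mm n) ^ ((mm n) ^ 2)) atTop (𝓝 1) := by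
  have h1 := tendsto_u (⊤ : SimpleGraph (Fin 2)) (by
    filter_upwards [eventually_ge_atTop 2] with m hm
    rw [tau_two m hm]
    have hm2 : (2 : ℝ) ≤ m := by exact_mod_cast hm
    have : (0 : ℝ) < m - 1 := by linarith
    positivity)
  have h2 : Tendsto (fun n : ℕ => (n : ℝ) / (n - 1)) atTop (𝓝 1) := by
    have h3 : Tendsto (fun n : ℕ => 1 / (1 - 1 / (n : ℝ))) atTop (𝓝 (1 / (1 - 0))) :=
      tendsto_const_nhds.div (tendsto_const_nhds.sub (tendsto_one_div_atTop_nhds_zero_nat (𝕜 := ℝ))) (by norm_num)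
    have h4 : (1 : ℝ) / (1 - 0) = 1 := by norm_num
    rw [h4] at h3
    refine h3.congr' ?_
    filter_upwards [eventually_ge_atTop 2] with n hn
    have hn2 : (2 : ℝ) ≤ n := by exact_mod_cast hn
    have : (n : ℝ) - 1 ≠ 0 := by linarith
    field_simp
  have h5 := h1.mul h2
  rw [mul_one] at h5
  refine h5.congr' ?_
  filter_upwards [eventually_ge_atTop 2, tendsto_mm.eventually_ge_atTop 2] with n hn hm
  rw [pp_eq hn, tau_two _ hm]
  have hn2 : (2 : ℝ) ≤ n := by exact_mod_cast hn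
  have : (n : ℝ) - 1 ≠ 0 := by linarith
  have hm2 : (2 : ℝ) ≤ mm n := by exact_mod_cast hm
  have : (0 : ℝ) < (mm n : ℝ) - 1 := by linarith
  field_simp

theorem pp_pos (n : ℕ) : 0 < pp n := by
  by_cases hn : n < 2
  · unfold pp; rw [if_pos hn]; norm_num
  push Not at hn
  have hn2 : (2 : ℝ) ≤ n := by exact_mod_cast hn
  by_cases hm : 2 ≤ mm n
  · rw [pp_eq hn]
    have h := (hom_bounds (⊤ : SimpleGraph (Fin 2)) (by omega) hm).1
    have hm2 : (2 : ℝ) ≤ mm n := by exact_mod_cast hm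
    rw [tau_two _ hm] at h
    have h1 : (0 : ℝ) < (mm n : ℝ) - 1 := by linarith
    have h2 : (1 : ℝ) < (mm n : ℝ) ^ ((mm n) ^ 2) := one_lt_pow₀ (by linarith) (by positivity)
    have h3 : (0 : ℝ) < 1 - 1 / ((mm n : ℝ) ^ ((mm n) ^ 2)) := by
      rw [sub_pos, div_lt_one (by linarith)]; exact h2
    have h4 : (0 : ℝ) < n - 1 := by linarith
    have h5 : (0 : ℝ) < homc (⊤ : SimpleGraph (Fin 2)) (GG n) := lt_of_lt_of_le (by positivity) h
    positivity
  · have hG : GG n = ⊤ := by unfold GG; rw [dif_neg hm]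
    rw [pp_eq hn, hG, homc_top_top]
    have h4 : (0 : ℝ) < n - 1 := by linarith
    have : (n.descFactorial 2 : ℝ) = n * (n - 1) := by
      simp only [Nat.descFactorial_succ, Nat.descFactorial_zero, Nat.sub_zero]
      push_cast [Nat.cast_sub (show 1 ≤ n by omega)]
      ring
    rw [this]
    positivity

theorem pp_mul (n : ℕ) : ((GG n).edgeSet.ncard : ℝ) = pp n * (n.choose 2 : ℝ) := by
  unfold pp
  split_ifs with h
  · have : (GG n).edgeSet.ncard ≤ n.choose 2 := by
      classical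
      have := SimpleGraph.card_edgeFinset_le_card_choose_two (G := GG n)
      rw [Fintype.card_fin] at this
      rwa [← SimpleGraph.coe_edgeFinset, Set.ncard_coe_finset]
    have h0 : n.choose 2 = 0 := Nat.choose_eq_zero_of_lt h
    rw [h0] at this ⊢
    have : (GG n).edgeSet.ncard = 0 := by omega
    rw [this]; simp
  · have : (0 : ℝ) < (n.choose 2 : ℝ) := by exact_mod_cast Nat.choose_pos (by omega)
    rw [div_mul_cancel₀ _ this.ne']

theorem pp_le_one (n : ℕ) : pp n ≤ 1 := by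
  unfold pp
  split_ifs with h
  · exact le_rfl
  · have h1 : (GG n).edgeSet.ncard ≤ n.choose 2 := by
      classical
      have := SimpleGraph.card_edgeFinset_le_card_choose_two (G := GG n)
      rw [Fintype.card_fin] at this
      rwa [← SimpleGraph.coe_edgeFinset, Set.ncard_coe_finset]
    have : (0 : ℝ) < (n.choose 2 : ℝ) := by exact_mod_cast Nat.choose_pos (by omega)
    rw [div_le_one this]
    exact_mod_cast h1

theorem tendsto_desc (k : ℕ) : Tendsto (fun n : ℕ => (n : ℝ) ^ k / (n.descFactorial k : ℝ)) atTop (𝓝 1) := by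
  have h1 : Tendsto (fun n : ℕ => (1 - k * (1 / (n : ℝ))) ^ k) atTop (𝓝 1) := by
    have := ((tendsto_const_nhds (x := (1 : ℝ))).sub ((tendsto_one_div_atTop_nhds_zero_nat (𝕜 := ℝ)).const_mul (k : ℝ))).pow k
    simpa using this
  have h2 : Tendsto (fun n : ℕ => (n.descFactorial k : ℝ) / (n : ℝ) ^ k) atTop (𝓝 1) := by
    refine tendsto_of_tendsto_of_tendsto_of_le_of_le' h1 tendsto_const_nhds ?_ ?_
    · filter_upwards [eventually_ge_atTop (k + 1)] with n hn
      have hn' : (0 : ℝ) < n := by exact_mod_cast (by omega : 0 < n)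
      rw [le_div_iff₀ (by positivity), ← mul_pow]
      have h3 : (1 - k * (1 / (n : ℝ))) * n = n - k := by field_simp
      rw [h3]
      have h4 := Nat.pow_sub_le_descFactorial n k
      have h5 : ((n : ℝ) - k) ^ k ≤ (((n + 1 - k : ℕ) : ℝ)) ^ k := by
        refine pow_le_pow_left₀ ?_ ?_ k
        · rw [sub_nonneg]; exact_mod_cast (by omega : k ≤ n)
        · rw [Nat.cast_sub (by omega)]; push_cast; linarith
      exact h5.trans (by exact_mod_cast h4)
    · filter_upwards [eventually_ge_atTop (k + 1)] with n hn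
      have hn' : (0 : ℝ) < n := by exact_mod_cast (by omega : 0 < n)
      rw [div_le_one (by positivity)]
      exact_mod_cast Nat.descFactorial_le_pow n k
  have h3 := h2.inv₀ (by norm_num)
  rw [inv_one] at h3
  refine h3.congr fun n => ?_
  rw [inv_div]

/-- rewriting of the normalised density -/
theorem sDens_formula {k n : ℕ} (F : SimpleGraph (Fin k)) (e : ℕ) (he : F.edgeSet.ncard = e) (q t : ℝ) (N : ℕ)
    (hq : 0 < q) (ht : 0 < t) (hn : 0 < n) (hk : 0 < n.descFactorial k) (p : ℝ) (hp : 0 < p) (G : SimpleGraph (Fin n)) :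
    sDens p F G = ((G.labelledCopyCount F : ℝ) / ((n : ℝ) ^ k * t ^ N)) * ((n : ℝ) ^ k / (n.descFactorial k : ℝ)) *
      (t / q ^ e) ^ N * ((p / q ^ N) ^ e)⁻¹ := by
  unfold sDens
  rw [he]
  have h1 : (0 : ℝ) < n := by exact_mod_cast hn
  have h2 : (0 : ℝ) < n.descFactorial k := by exact_mod_cast hk
  rw [div_pow, div_pow, ← pow_mul, ← pow_mul, mul_comm N e]
  field_simp

theorem card_edge_top3 : (⊤ : SimpleGraph (Fin 3)).edgeSet.ncard = 3 := by
  classical
  rw [← SimpleGraph.coe_edgeFinset, Set.ncard_coe_finset, SimpleGraph.card_edgeFinset_top_eq_card_choose_two]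
  simp [Nat.choose]

theorem card_edge_C4 : (SimpleGraph.cycleGraph 4).edgeSet.ncard = 4 := by
  classical
  rw [← SimpleGraph.coe_edgeFinset, Set.ncard_coe_finset]
  decide

theorem tendsto_mm_real : Tendsto (fun n => (mm n : ℝ)) atTop atTop :=
  tendsto_natCast_atTop_atTop.comp tendsto_mm

theorem lim_K3_core : Tendsto (fun m : ℕ => (1 + (-(1 / ((m : ℝ) - 1) ^ 2))) ^ (m ^ 2)) atTop (𝓝 (Real.exp (-1))) := by
  have hbase : Tendsto (fun m : ℕ => (m : ℝ) - 1) atTop atTop :=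
    tendsto_atTop_add_const_right _ _ tendsto_natCast_atTop_atTop
  have hinv : Tendsto (fun m : ℕ => 1 / ((m : ℝ) - 1)) atTop (𝓝 0) := by
    have h0 := hbase.inv_tendsto_atTop
    simp only [one_div]
    exact h0
  refine tendsto_pow_exp ?_ ?_
  · have := (hinv.pow 2).neg
    simpa [div_pow] using this
  · have h1 : Tendsto (fun m : ℕ => -(1 + 1 / ((m : ℝ) - 1)) ^ 2) atTop (𝓝 (-(1 + 0) ^ 2)) :=
      ((tendsto_const_nhds.add hinv).pow 2).neg
    have h2 : (-(1 + 0) ^ 2 : ℝ) = -1 := by norm_num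
    rw [h2] at h1
    refine h1.congr' ?_
    filter_upwards [eventually_ge_atTop 2] with m hm
    have hm2 : (2 : ℝ) ≤ m := by exact_mod_cast hm
    have : (m : ℝ) - 1 ≠ 0 := by linarith
    push_cast
    field_simp
    ring

theorem lim_C4_core : Tendsto (fun m : ℕ => (1 + 1 / ((m : ℝ) - 1) ^ 3) ^ (m ^ 2)) atTop (𝓝 1) := by
  have hbase : Tendsto (fun m : ℕ => (m : ℝ) - 1) atTop atTop :=
    tendsto_atTop_add_const_right _ _ tendsto_natCast_atTop_atTop
  have hinv : Tendsto (fun m : ℕ => 1 / ((m : ℝ) - 1)) atTop (𝓝 0) := by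
    have h0 := hbase.inv_tendsto_atTop
    simp only [one_div]
    exact h0
  suffices hE : Tendsto (fun m : ℕ => (1 + 1 / ((m : ℝ) - 1) ^ 3) ^ (m ^ 2)) atTop (𝓝 (Real.exp 0)) by
    rw [Real.exp_zero] at hE; exact hE
  refine tendsto_pow_exp ?_ ?_
  · have := (hinv.pow 3)
    simpa [div_pow] using this
  · have h1 : Tendsto (fun m : ℕ => (1 + 1 / ((m : ℝ) - 1)) ^ 2 * (1 / ((m : ℝ) - 1))) atTop (𝓝 ((1 + 0) ^ 2 * 0)) :=
      ((tendsto_const_nhds.add hinv).pow 2).mul hinv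
    rw [mul_zero] at h1
    refine h1.congr' ?_
    filter_upwards [eventually_ge_atTop 2] with m hm
    have hm2 : (2 : ℝ) ≤ m := by exact_mod_cast hm
    have : (m : ℝ) - 1 ≠ 0 := by linarith
    push_cast
    field_simp
    ring

theorem lim_K3 : Tendsto (fun n => sDens (pp n) (⊤ : SimpleGraph (Fin 3)) (GG n)) atTop (𝓝 (Real.exp (-1))) := by
  have h1 := tendsto_u (⊤ : SimpleGraph (Fin 3)) (by
    filter_upwards [eventually_ge_atTop 3] with m hm
    rw [tau_three m (by omega)]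
    have hm2 : (3 : ℝ) ≤ m := by exact_mod_cast hm
    have : (0 : ℝ) < m - 1 := by linarith
    have : (0 : ℝ) < m - 2 := by linarith
    positivity)
  have h2 := tendsto_desc 3
  have h3 := lim_K3_core.comp tendsto_mm
  have h4 := (tendsto_rho.pow 3).inv₀ (by norm_num)
  have h5 := ((h1.mul h2).mul h3).mul h4
  have e1 : (1 * 1 * Real.exp (-1) * (1 ^ 3)⁻¹ : ℝ) = Real.exp (-1) := by norm_num
  rw [e1] at h5
  refine h5.congr' ?_
  filter_upwards [eventually_ge_atTop 3, tendsto_mm.eventually_ge_atTop 3] with n hn hm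
  have hm2 : (3 : ℝ) ≤ mm n := by exact_mod_cast hm
  have a1 : (0 : ℝ) < (mm n : ℝ) - 1 := by linarith
  have a2 : (0 : ℝ) < (mm n : ℝ) - 2 := by linarith
  rw [sDens_formula (⊤ : SimpleGraph (Fin 3)) 3 card_edge_top3 (((mm n : ℝ) - 1) / mm n)
    (tau (⊤ : SimpleGraph (Fin 3)) (mm n)) ((mm n) ^ 2) (by positivity)
    (by rw [tau_three _ (by omega)]; positivity) (by omega) (Nat.descFactorial_pos.2 hn) (pp n) (pp_pos n) (GG n),
    labelledCopyCount_top]
  simp only [Function.comp]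
  congr 3
  rw [tau_three _ (by omega)]
  field_simp
  ring

theorem lim_C4 : Tendsto (fun n => sDens (pp n) (SimpleGraph.cycleGraph 4) (GG n)) atTop (𝓝 1) := by
  have htau : ∀ m : ℕ, 2 ≤ m → tau (SimpleGraph.cycleGraph 4) m = (((m : ℝ) - 1) / m) ^ 4 * (1 + 1 / ((m : ℝ) - 1) ^ 3) := by
    intro m hm
    rw [tau_C4 m hm]
    have hm2 : (2 : ℝ) ≤ m := by exact_mod_cast hm
    have : (0 : ℝ) < m - 1 := by linarith
    field_simp
    ring
  have htpos : ∀ m : ℕ, 2 ≤ m → 0 < tau (SimpleGraph.cycleGraph 4) m := by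
    intro m hm
    rw [htau m hm]
    have hm2 : (2 : ℝ) ≤ m := by exact_mod_cast hm
    have : (0 : ℝ) < m - 1 := by linarith
    positivity
  have h1 := tendsto_u (SimpleGraph.cycleGraph 4) (by
    filter_upwards [eventually_ge_atTop 2] with m hm using htpos m hm)
  -- the number of degenerate homs is negligible
  have hdeg : Tendsto (fun n : ℕ => 2 / ((n : ℝ) * (tau (SimpleGraph.cycleGraph 4) (mm n)) ^ ((mm n) ^ 2))) atTop (𝓝 0) := by
    have hz : Tendsto (fun n : ℕ => 2 / (mm n : ℝ)) atTop (𝓝 0) := by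
      have := tendsto_mm_real.inv_tendsto_atTop.const_mul 2
      simpa [div_eq_mul_inv] using this
    refine squeeze_zero' ?_ ?_ hz
    · filter_upwards [tendsto_mm.eventually_ge_atTop 2] with n hm
      have := htpos _ hm
      positivity
    · filter_upwards [eventually_ge_atTop 1, tendsto_mm.eventually_ge_atTop 16] with n hn hm
      have hm2 : (16 : ℝ) ≤ mm n := by exact_mod_cast hm
      have a1 : (0 : ℝ) < (mm n : ℝ) - 1 := by linarith
      have ht := htpos _ (show 2 ≤ mm n by omega)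
      refine div_le_div_of_nonneg_left (by norm_num) (by linarith) ?_
      have hspec := mm_spec hn
      have hs : ((mm n : ℝ) ^ (mm n ^ 2 : ℕ)) ^ (2 : ℕ) ≤ (n : ℝ) := by exact_mod_cast hspec
      have hq : (1 / 16 : ℝ) ≤ tau (SimpleGraph.cycleGraph 4) (mm n) := by
        rw [htau _ (by omega)]
        have b1 : (1 / 2 : ℝ) ≤ ((mm n : ℝ) - 1) / mm n := by
          rw [div_le_div_iff₀ (by norm_num) (by linarith)]; linarith
        have b2 : (1 / 2 : ℝ) ^ 4 ≤ (((mm n : ℝ) - 1) / mm n) ^ 4 := pow_le_pow_left₀ (by norm_num) b1 4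
        have b3 : (1 : ℝ) ≤ 1 + 1 / ((mm n : ℝ) - 1) ^ 3 := by
          have : (0 : ℝ) < 1 / ((mm n : ℝ) - 1) ^ 3 := by positivity
          linarith
        calc (1 / 16 : ℝ) = (1 / 2) ^ 4 * 1 := by norm_num
          _ ≤ _ := by gcongr
      have c1 : (1 / 16 : ℝ) ^ ((mm n) ^ 2) ≤ (tau (SimpleGraph.cycleGraph 4) (mm n)) ^ ((mm n) ^ 2) :=
        pow_le_pow_left₀ (by norm_num) hq _
      have c2 : (mm n : ℝ) ≤ (mm n : ℝ) ^ ((mm n) ^ 2) := le_self_pow₀ (by linarith) (by positivity)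
      have c3 : (1 : ℝ) ≤ ((mm n : ℝ) * (1 / 16)) ^ ((mm n) ^ 2) := one_le_pow₀ (by linarith)
      calc (mm n : ℝ) ≤ (mm n : ℝ) ^ ((mm n) ^ 2) * 1 := by linarith
        _ ≤ (mm n : ℝ) ^ ((mm n) ^ 2) * ((mm n : ℝ) * (1 / 16)) ^ ((mm n) ^ 2) := by gcongr
        _ = ((mm n : ℝ) ^ ((mm n) ^ 2)) ^ 2 * (1 / 16) ^ ((mm n) ^ 2) := by rw [mul_pow]; ring
        _ ≤ n * (tau (SimpleGraph.cycleGraph 4) (mm n)) ^ ((mm n) ^ 2) := by gcongr
  have h1' : Tendsto (fun n : ℕ => ((GG n).labelledCopyCount (SimpleGraph.cycleGraph 4) : ℝ) /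
      ((n : ℝ) ^ 4 * (tau (SimpleGraph.cycleGraph 4) (mm n)) ^ ((mm n) ^ 2))) atTop (𝓝 1) := by
    have hlow := h1.sub hdeg
    rw [sub_zero] at hlow
    refine tendsto_of_tendsto_of_tendsto_of_le_of_le' hlow h1 ?_ ?_
    · filter_upwards [eventually_ge_atTop 1, tendsto_mm.eventually_ge_atTop 2] with n hn hm
      have hn' : (0 : ℝ) < n := by exact_mod_cast hn
      have ht := htpos _ hm
      have hc := homc_C4_le (GG n)
      have hc' : (homc (SimpleGraph.cycleGraph 4) (GG n) : ℝ) ≤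
          (GG n).labelledCopyCount (SimpleGraph.cycleGraph 4) + 2 * (n : ℝ) ^ 3 := by exact_mod_cast hc
      have e2 : 2 / ((n : ℝ) * (tau (SimpleGraph.cycleGraph 4) (mm n)) ^ ((mm n) ^ 2)) =
          (2 * (n : ℝ) ^ 3) / ((n : ℝ) ^ 4 * (tau (SimpleGraph.cycleGraph 4) (mm n)) ^ ((mm n) ^ 2)) := by
        field_simp
      rw [e2, ← sub_div]
      gcongr
      linarith
    · filter_upwards [eventually_ge_atTop 1, tendsto_mm.eventually_ge_atTop 2] with n hn hm
      have hn' : (0 : ℝ) < n := by exact_mod_cast hn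
      have ht := htpos _ hm
      gcongr
      exact labelledCopyCount_le _ _
  have h2 := tendsto_desc 4
  have h3 := lim_C4_core.comp tendsto_mm
  have h4 := (tendsto_rho.pow 4).inv₀ (by norm_num)
  have h5 := ((h1'.mul h2).mul h3).mul h4
  have e1 : (1 * 1 * 1 * (1 ^ 4)⁻¹ : ℝ) = 1 := by norm_num
  rw [e1] at h5
  refine h5.congr' ?_
  filter_upwards [eventually_ge_atTop 4, tendsto_mm.eventually_ge_atTop 3] with n hn hm
  have hm2 : (3 : ℝ) ≤ mm n := by exact_mod_cast hm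
  have a1 : (0 : ℝ) < (mm n : ℝ) - 1 := by linarith
  rw [sDens_formula (SimpleGraph.cycleGraph 4) 4 card_edge_C4 (((mm n : ℝ) - 1) / mm n)
    (tau (SimpleGraph.cycleGraph 4) (mm n)) ((mm n) ^ 2) (by positivity)
    (htpos _ (by omega)) (by omega) (Nat.descFactorial_pos.2 hn) (pp n) (pp_pos n) (GG n)]
  simp only [Function.comp]
  congr 3
  rw [htau _ (by omega)]
  field_simp

theorem bound_all (k : ℕ) (F : SimpleGraph (Fin k)) : ∃ C, ∀ n, sDens (pp n) F (GG n) ≤ C := by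
  set e := F.edgeSet.ncard with he
  have hev : ∀ᶠ n in atTop, sDens (pp n) F (GG n) ≤ 2 ^ k * 2 * Real.exp (2 ^ e * 4) * 2 := by
    have h2 : ∀ᶠ n : ℕ in atTop, (n : ℝ) ^ k / (n.descFactorial k : ℝ) ≤ 2 :=
      (tendsto_desc k).eventually_le_const (by norm_num)
    have h4 : ∀ᶠ n in atTop, ((pp n / (((mm n : ℝ) - 1) / mm n) ^ ((mm n) ^ 2)) ^ e)⁻¹ ≤ 2 := by
      have := (tendsto_rho.pow e).inv₀ (by norm_num)
      refine this.eventually_le_const ?_
      norm_num
    filter_upwards [h2, h4, eventually_ge_atTop (k + 1), tendsto_mm.eventually_ge_atTop 2] with n h2 h4 hn hm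
    have hm2 : (2 : ℝ) ≤ mm n := by exact_mod_cast hm
    have a1 : (0 : ℝ) < (mm n : ℝ) - 1 := by linarith
    have hn' : (0 : ℝ) < n := by exact_mod_cast (by omega : 0 < n)
    have hdf : (0 : ℝ) < n.descFactorial k := by exact_mod_cast Nat.descFactorial_pos.2 (by omega : k ≤ n)
    have hpp := pp_pos n
    set m := mm n with hmdef
    set q : ℝ := ((m : ℝ) - 1) / m with hq
    have hqpos : 0 < q := by positivity
    -- the colouring bound
    have hcol := homc_top_upper (m := m) hm F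
    rw [card_oe, ← he] at hcol
    have htau : tau F m ≤ q ^ e * (1 + 2 ^ e * (4 / (m : ℝ) ^ 2)) := by
      unfold tau
      rw [div_le_iff₀ (by positivity)]
      have e1 : ((m : ℝ) / (m - 1)) ^ e = (q ^ e)⁻¹ := by
        rw [hq, ← inv_pow, inv_div]
      rw [e1] at hcol
      have := mul_le_mul_of_nonneg_right hcol (show 0 ≤ q ^ e by positivity)
      rw [mul_assoc, inv_mul_cancel₀ (by positivity), mul_one] at this
      linarith
    have htau0 : 0 ≤ tau F m := by unfold tau; positivity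
    have hpow : (tau F m) ^ (m ^ 2) ≤ (q ^ e) ^ (m ^ 2) * Real.exp (2 ^ e * 4) := by
      calc (tau F m) ^ (m ^ 2) ≤ (q ^ e * (1 + 2 ^ e * (4 / (m : ℝ) ^ 2))) ^ (m ^ 2) := pow_le_pow_left₀ htau0 htau _
        _ = (q ^ e) ^ (m ^ 2) * (1 + 2 ^ e * (4 / (m : ℝ) ^ 2)) ^ (m ^ 2) := by rw [mul_pow]
        _ ≤ (q ^ e) ^ (m ^ 2) * (Real.exp (2 ^ e * (4 / (m : ℝ) ^ 2))) ^ (m ^ 2) := by
            gcongr
            have := Real.add_one_le_exp (2 ^ e * (4 / (m : ℝ) ^ 2))
            linarith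
        _ = (q ^ e) ^ (m ^ 2) * Real.exp (2 ^ e * 4) := by
            rw [← Real.exp_nat_mul]
            congr 2
            push_cast
            field_simp
    have hhom := (hom_bounds F (by omega) hm).2
    rw [← hmdef] at hhom
    have hM1 : 1 + 1 / ((m : ℝ) ^ (m ^ 2)) ≤ 2 := by
      have : (1 : ℝ) ≤ (m : ℝ) ^ (m ^ 2) := one_le_pow₀ (by linarith)
      have : 1 / ((m : ℝ) ^ (m ^ 2)) ≤ 1 := by rw [div_le_one (by linarith)]; exact this
      linarith
    unfold sDens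
    rw [div_le_iff₀ (by positivity), ← he]
    have hlc : ((GG n).labelledCopyCount F : ℝ) ≤ homc F (GG n) := by exact_mod_cast labelledCopyCount_le F (GG n)
    have h2' : (n : ℝ) ^ k ≤ 2 * n.descFactorial k := by
      rw [div_le_iff₀ hdf] at h2; exact h2
    have h4' : (q ^ e) ^ (m ^ 2) ≤ 2 * (pp n) ^ e := by
      rw [div_pow, inv_div, div_le_iff₀ (by positivity)] at h4
      rw [← pow_mul, mul_comm e, pow_mul]
      exact h4
    calc ((GG n).labelledCopyCount F : ℝ) ≤ homc F (GG n) := hlc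
      _ ≤ (1 + 1 / ((m : ℝ) ^ (m ^ 2))) ^ k * ((n : ℝ) ^ k * (tau F m) ^ (m ^ 2)) := hhom
      _ ≤ 2 ^ k * ((2 * n.descFactorial k) * ((2 * (pp n) ^ e) * Real.exp (2 ^ e * 4))) := by
          gcongr
          refine hpow.trans ?_
          gcongr
      _ = 2 ^ k * 2 * Real.exp (2 ^ e * 4) * 2 * ((n.descFactorial k : ℝ) * (pp n) ^ e) := by ring
  have hb : BddAbove (Set.range (fun n => sDens (pp n) F (GG n))) :=
    Filter.IsBoundedUnder.bddAbove_range ⟨_, hev⟩
  obtain ⟨C, hC⟩ := hb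
  exact ⟨C, fun n => hC ⟨n, rfl⟩⟩

theorem log_small : Tendsto (fun n : ℕ => Real.log (1 / pp n) / Real.log n) atTop (𝓝 0) := by
  have hz : Tendsto (fun n => 2 / ((mm n : ℝ) - 1)) atTop (𝓝 0) := by
    have h0 : Tendsto (fun n => (mm n : ℝ) - 1) atTop atTop := tendsto_atTop_add_const_right _ _ tendsto_mm_real
    have := h0.inv_tendsto_atTop.const_mul 2
    simpa [div_eq_mul_inv] using this
  have hrho : ∀ᶠ n in atTop, (1 / 2 : ℝ) < pp n / (((mm n : ℝ) - 1) / mm n) ^ ((mm n) ^ 2) :=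
    tendsto_rho.eventually_const_lt (by norm_num)
  refine squeeze_zero' ?_ ?_ hz
  · filter_upwards [eventually_ge_atTop 1] with n hn
    refine div_nonneg (Real.log_nonneg ?_) (Real.log_natCast_nonneg n)
    rw [le_div_iff₀ (pp_pos n), one_mul]
    exact pp_le_one n
  · filter_upwards [hrho, eventually_ge_atTop 2, tendsto_mm.eventually_ge_atTop 3] with n hr hn hm
    have hm2 : (3 : ℝ) ≤ mm n := by exact_mod_cast hm
    have a1 : (0 : ℝ) < (mm n : ℝ) - 1 := by linarith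
    set m := mm n with hmdef
    set q : ℝ := ((m : ℝ) - 1) / m with hq
    have hqpos : 0 < q := by positivity
    have hlog3 : 1 ≤ Real.log m := by
      rw [Real.le_log_iff_exp_le (by linarith)]
      have := Real.exp_one_lt_d9
      linarith
    have hspec := mm_spec (n := n) (by omega)
    rw [← hmdef] at hspec
    have hs : ((m : ℝ) ^ (m ^ 2)) ^ 2 ≤ n := by exact_mod_cast hspec
    have hlogn : 2 * ((m : ℝ) ^ 2 * Real.log m) ≤ Real.log n := by
      have := Real.log_le_log (by positivity) hs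
      rw [Real.log_pow, Real.log_pow] at this
      push_cast at this
      linarith
    have hp : (1 / 2 : ℝ) * q ^ (m ^ 2) < pp n := by
      rwa [lt_div_iff₀ (by positivity)] at hr
    have hlogp : Real.log (1 / pp n) ≤ Real.log 2 + (m : ℝ) ^ 2 * (1 / (m - 1)) := by
      have h1 : 1 / pp n ≤ 2 * (q ^ (m ^ 2))⁻¹ := by
        rw [div_le_iff₀ (pp_pos n)]
        have : (q ^ (m ^ 2))⁻¹ * q ^ (m ^ 2) = 1 := inv_mul_cancel₀ (by positivity)
        nlinarith [inv_pos.2 (pow_pos hqpos (m ^ 2))]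
      have h2 := Real.log_le_log (by have := pp_pos n; positivity) h1
      rw [Real.log_mul (by norm_num) (by positivity), Real.log_inv, Real.log_pow] at h2
      have h3 := Real.one_sub_inv_le_log_of_pos hqpos
      have h4 : 1 - q⁻¹ = -(1 / ((m : ℝ) - 1)) := by
        rw [hq, inv_div]; field_simp; ring
      rw [h4] at h3
      push_cast at h2
      have h5 : (m : ℝ) ^ 2 * (-(1 / ((m : ℝ) - 1))) ≤ (m : ℝ) ^ 2 * Real.log q :=
        mul_le_mul_of_nonneg_left h3 (by positivity)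
      linarith
    have hlog2 : Real.log 2 ≤ 1 := by
      have := Real.log_two_lt_d9; linarith
    have hlognpos : 0 < Real.log n := by
      have : 0 < (m : ℝ) ^ 2 * Real.log m := by positivity
      linarith
    rw [div_le_div_iff₀ hlognpos a1]
    have b1 : (1 : ℝ) ≤ (m : ℝ) ^ 2 * (1 / (m - 1)) := by
      rw [mul_one_div, le_div_iff₀ a1]; nlinarith
    calc Real.log (1 / pp n) * ((m : ℝ) - 1) ≤ (2 * ((m : ℝ) ^ 2 * (1 / (m - 1)))) * ((m : ℝ) - 1) := by
          refine mul_le_mul_of_nonneg_right ?_ a1.le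
          linarith
      _ = 2 * (m : ℝ) ^ 2 := by field_simp
      _ ≤ 2 * (2 * ((m : ℝ) ^ 2 * Real.log m)) := by nlinarith [sq_nonneg (m : ℝ)]
      _ ≤ 2 * Real.log n := by linarith

/-- There are a density sequence `p(n) = n^{-o(1)}` and graphs `G n` on `n` vertices with
`e(G n) = p(n) * (n choose 2)`, with normalised 4-cycle count tending to `1`, with every normalised
subgraph count bounded, for which the normalised triangle count tends to `1/e` and not to `1`. -/
theorem result : ∃ (p : ℕ → ℝ) (G : ∀ n : ℕ, SimpleGraph (Fin n)),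
    (∀ n, 0 < p n ∧ p n ≤ 1) ∧
    Tendsto (fun n : ℕ => Real.log (1 / p n) / Real.log n) atTop (𝓝 0) ∧
    (∀ n, ((G n).edgeSet.ncard : ℝ) = p n * (n.choose 2 : ℝ)) ∧
    Tendsto (fun n => sDens (p n) (SimpleGraph.cycleGraph 4) (G n)) atTop (𝓝 1) ∧
    (∀ (k : ℕ) (F : SimpleGraph (Fin k)), ∃ C : ℝ, ∀ n, sDens (p n) F (G n) ≤ C) ∧
    Tendsto (fun n => sDens (p n) (⊤ : SimpleGraph (Fin 3)) (G n)) atTop (𝓝 (Real.exp (-1))) ∧
    ¬ Tendsto (fun n => sDens (p n) (⊤ : SimpleGraph (Fin 3)) (G n)) atTop (𝓝 1) := by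
  refine ⟨pp, GG, fun n => ⟨pp_pos n, pp_le_one n⟩, log_small, pp_mul, lim_C4, bound_all, lim_K3, fun h => ?_⟩
  have := tendsto_nhds_unique h lim_K3
  have h2 : Real.exp (-1) < 1 := by
    rw [Real.exp_lt_one_iff]
    norm_num
  linarith

end Pool.Agent.Results.MP_e47ff0_co.TensorPower
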